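import Mathlib
import Pool.Agent.R365.AK.Main
import Pool.Agent.R365.QP.Main

set_option autoImplicit false

namespace Pool.Agent.Results.MP_4d5ce1_nt.ExceptionsAtEveryLevel

open NumberField IsDedekindDomain

/-- the absolute logarithmic height of the point `[x : 1]` -/
noncomputable def height {K : Type} [Field K] [NumberField K] (x : K) : ℝ :=
  (∑ w : InfinitePlace K, (w.mult : ℝ) * Real.log (max (w x) (w 1)) +
    ∑ᶠ v : HeightOneSpectrum (RingOfIntegers K),
      Real.log (max (FinitePlace.mk v x) (FinitePlace.mk v 1))) /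
    (Module.finrank ℚ K : ℝ)

/-- the truncated counting function of the point `[x : 1]` with respect to the points
`[(α l).1 : (α l).2]`: the sum over the primes outside `T` and over `l` of the truncated local
heights -/
noncomputable def counting {K : Type} [Field K] [NumberField K]
    (T : Set (HeightOneSpectrum (RingOfIntegers K))) {q : ℕ} (α : Fin q → K × K) (x : K) : ℝ :=
  ∑ᶠ (v : HeightOneSpectrum (RingOfIntegers K)) (_ : v ∉ T),
    ∑ l : Fin q,
      min
        (Real.log
            (max (FinitePlace.mk v x) (FinitePlace.mk v 1) *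
              max (FinitePlace.mk v (α l).1) (FinitePlace.mk v (α l).2) /
              FinitePlace.mk v (x * (α l).2 - 1 * (α l).1)) /
          (Module.finrank ℚ K : ℝ))
        (Real.log (Ideal.absNorm v.asIdeal : ℝ) / (Module.finrank ℚ K : ℝ))

/-- the set of the `x ∈ K` of height `H(x) ≤ B`, different from the `α_l`, with
`∑_{v ∉ T} ∑_l λ^(1)_v(α_l, x) < (q - κ) h(x) + c` -/
def exceptional {K : Type} [Field K] [NumberField K]
    (T : Set (HeightOneSpectrum (RingOfIntegers K))) {q : ℕ} (α : Fin q → K × K)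
    (κ c B : ℝ) : Set K :=
  {x : K | (∀ l, x * (α l).2 - 1 * (α l).1 ≠ 0) ∧ Real.exp (height x) ≤ B ∧
    counting T α x < ((q : ℝ) - κ) * height x + c}

/-- the exponent: a continuous function on `[0, 3]`, linear on each of the intervals between
`0, 1, 4/3, 3/2, 12/7, 2, 38/15, 3`, with the values `2, 1, 1, 5/6, 5/7, 20/37, 4/15, 0` at these
points -/
noncomputable def G (u : ℝ) : ℝ :=
  if u < 1 then 2 - u
  else if u < 4 / 3 then 1
  else if u < 3 / 2 then 7 / 3 - u
  else if u < 12 / 7 then 5 * (3 - u) / 9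
  else if u < 2 then 5 * (26 - 9 * u) / 74
  else if u < 38 / 15 then (58 - 19 * u) / 37
  else 4 * (3 - u) / 7

/-- Let `K` be a number field of degree `d`, `T` a finite set of primes, `α_1, …, α_q` (`q ≥ 3`)
distinct points of the projective line over `K`, `0 ≤ κ < q`, and `c`, `δ > 0` real. Then, for
`B ≥ 1`, the number of `x ∈ K` of height `H(x) ≤ B`, different from the `α_l`, with
`∑_{v ∉ T} ∑_l λ^(1)_v(α_l, x) < (q - κ) h(x) + c` is `O(B ^ (d G(3κ/q) + δ))`. -/
theorem result :
    ∀ (K : Type) [Field K] [NumberField K]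
      (T : Set (HeightOneSpectrum (RingOfIntegers K))), T.Finite →
      ∀ (q : ℕ), 3 ≤ q → ∀ (α : Fin q → K × K),
        (∀ i, α i ≠ 0) →
        (∀ i j, i ≠ j → (α i).1 * (α j).2 - (α i).2 * (α j).1 ≠ 0) →
        ∀ κ c δ : ℝ, 0 ≤ κ → κ < q → 0 < δ →
          ∃ C : ℝ, ∀ B : ℝ, 1 ≤ B → (exceptional T α κ c B).Finite ∧
            ((exceptional T α κ c B).ncard : ℝ) ≤
              C * B ^ ((Module.finrank ℚ K : ℝ) * G (3 * κ / q) + δ) := by
  intro K _ _ T hT q hq α hα0 hα κ c δ hκ0 hκq hδ
  classical
  set d : ℝ := (Module.finrank ℚ K : ℝ) with hd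
  have hdpos : 0 < d := by
    rw [hd]
    exact_mod_cast Module.finrank_pos
  have hqR : (0 : ℝ) < q := by
    have : 0 < q := by omega
    exact_mod_cast this
  -- comparison with the unnormalised quantities
  have hheight : ∀ x : K, d * height x = Pool.Agent.H691R3.hr (Pool.Agent.H691R3.aff x) := by
    intro x
    unfold height
    rw [mul_div_cancel₀ _ hdpos.ne']
    rfl
  have hcount : ∀ x : K, d * counting T α x = Pool.Agent.H691R3.NTc T α x := by
    intro x
    unfold counting Pool.Agent.H691R3.NTc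
    rw [mul_finsum]
    refine finsum_congr fun v => ?_
    rw [finsum_eq_if, finsum_eq_if]
    split_ifs with hv
    · rw [mul_zero]
    rw [Finset.mul_sum]
    refine Finset.sum_congr rfl fun l _ => ?_
    rw [mul_min_of_nonneg _ _ hdpos.le, mul_div_cancel₀ _ hdpos.ne', mul_div_cancel₀ _ hdpos.ne']
    rfl
  set u : ℝ := 3 * κ / q with hu
  have hu0 : 0 ≤ u := by rw [hu]; positivity
  have hu3 : u < 3 := by
    rw [hu, div_lt_iff₀ hqR]
    linarith
  have hG : Pool.Agent.R365.AK.eK (3 - u) = G u := by
    unfold Pool.Agent.R365.AK.eK G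
    split_ifs <;> linarith
  have he0 : 0 ≤ G u := by
    rw [← hG]
    exact Pool.Agent.R365.AK.eK_nonneg (by linarith)
  have hF := Pool.Agent.R365.AK.main3 K (3 - u) (by linarith) (by linarith)
  rw [hG] at hF
  obtain ⟨C, hC, hmain⟩ := Pool.Agent.R365.QP.count_q hq T hT α hα0 hα κ hκq he0 hF (d * c)
    (δ / d) (div_pos hδ hdpos)
  refine ⟨C, fun B hB => ?_⟩
  have hB0 : 0 < B := by linarith
  have hlogB : 0 ≤ Real.log B := Real.log_nonneg hB
  have hbound : ∀ E : Finset K, (E : Set K) ⊆ exceptional T α κ c B →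
      (E.card : ℝ) ≤ C * B ^ (d * G u + δ) := by
    intro E hE
    have h1 := hmain (d * Real.log B) E (mul_nonneg hdpos.le hlogB) ?_
    · refine h1.trans (le_of_eq ?_)
      rw [Real.rpow_def_of_pos hB0]
      congr 2
      field_simp
    · intro x hx
      obtain ⟨h2, h3, h4⟩ := hE hx
      refine ⟨h2, ?_, ?_⟩
      · rw [← hcount, ← hheight]
        have h5 : d * counting T α x < d * (((q : ℝ) - κ) * height x + c) :=
          mul_lt_mul_of_pos_left h4 hdpos
        have h6 : d * (((q : ℝ) - κ) * height x + c) =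
            ((q : ℝ) - κ) * (d * height x) + d * c := by ring
        rw [h6] at h5
        exact h5
      · rw [← hheight]
        refine mul_le_mul_of_nonneg_left ?_ hdpos.le
        rw [Real.le_log_iff_exp_le hB0]
        exact h3
  have hnn : 0 ≤ C * B ^ (d * G u + δ) := by positivity
  have hfin : (exceptional T α κ c B).Finite := by
    by_contra hinf
    obtain ⟨E, hEV, hEc⟩ := Set.Infinite.exists_subset_card_eq hinf
      (⌊C * B ^ (d * G u + δ)⌋₊ + 1)
    have h1 := hbound E hEV
    have h2 := Nat.lt_floor_add_one (C * B ^ (d * G u + δ))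
    rw [hEc] at h1
    push_cast at h1
    linarith
  refine ⟨hfin, ?_⟩
  rw [Set.ncard_eq_toFinset_card _ hfin]
  exact hbound hfin.toFinset (by rw [Set.Finite.coe_toFinset])

end Pool.Agent.Results.MP_4d5ce1_nt.ExceptionsAtEveryLevel
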